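import Pool.Agent.Helper24.MD.FinalX

set_option autoImplicit false

namespace Pool.Agent.Results.MP_120218_co.ManyDilates

open Finset

/-- **Sets with many dilates, and sets of small rank.** Let `k ≥ 1`, `ε > 0` and `C` be given. There are
`m`, `K` and `c > 0` such that the following holds for every finite non-empty set `B` of non-zero
integers.

Let `G` be a set of at least `m` natural numbers such that no prime `p` with `v_p` not constant on
`B` divides two elements of `G` (for instance the elements of `G` are pairwise coprime, or prime to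
all elements of `B`), and such that at most `c log |B|` of these primes `p` divide a difference of
two different elements of `G`. Let `A` be a finite set of integers that contains a translate
`g B + t` of `g B` for every `g ∈ G` (for instance `A` contains `g B` for every `g ∈ G`, or `A` is
the `M`-fold sumset of `B`, `M` the maximum of `G`). Then

(1) `|kA| |B^k| ≥ c |B|^(k + 1 - ε)`;

(2) if `B` is contained in a coset of a subgroup of rank at most `C log |B|` of the multiplicative
group of the rational numbers, then `|X + kA| ≥ c |X|^(1 - ε) |B|^(k - ε)` for every finite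
non-empty set `X` of integers; in particular `|kA| ≥ c |B|^(k - ε)`.

(3) If `B` is contained in such a coset, then `|X + KB| ≥ c |X|^(1 - ε) |B|^k` for every finite
non-empty set `X` of integers (no condition on dilates; this comes from (2) with the `M`-fold sumset
of `B` in the place of `A`).

The condition on `B` in (2) and (3) is stated as follows: there are `r ≤ C log |B|` and rationals
`x₀, x₁, .., x_r` such that for every `b ∈ B` the absolute value `|b|` is `x₀ ∏ x_i ^ (e_i)` with
integers `e_i`. -/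
theorem result (k : ℕ) (hk : 1 ≤ k) (ε C : ℝ) (hε : 0 < ε) :
    ∃ (m K : ℕ) (c : ℝ), 0 < c ∧ ∀ B : Finset ℤ, B.Nonempty → (0 : ℤ) ∉ B →
      (∀ G : Finset ℕ, m ≤ G.card →
        (∀ p : ℕ, p.Prime → (∃ b ∈ B, ∃ b' ∈ B, padicValInt p b ≠ padicValInt p b') →
          ∀ g ∈ G, ∀ g' ∈ G, p ∣ g → p ∣ g' → g = g') →
        (({p : ℕ | p.Prime ∧ (∃ b ∈ B, ∃ b' ∈ B, padicValInt p b ≠ padicValInt p b') ∧
          ∃ g ∈ G, ∃ g' ∈ G, g ≠ g' ∧ (p : ℤ) ∣ ((g : ℕ) : ℤ) - ((g' : ℕ) : ℤ)}.ncard : ℕ) : ℝ) ≤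
          c * Real.log B.card →
        ∀ A : Finset ℤ, (∀ g ∈ G, ∃ t : ℤ, ∀ b ∈ B, ((g : ℕ) : ℤ) * b + t ∈ A) →
          c * (B.card : ℝ) ^ ((k : ℝ) + 1 - ε) ≤
            (((Fintype.piFinset (fun _ : Fin k => A)).image
              (fun f : Fin k → ℤ => ∑ i, f i)).card : ℝ) *
            (((Fintype.piFinset (fun _ : Fin k => B)).image
              (fun f : Fin k → ℤ => ∏ i, f i)).card : ℝ) ∧
          ∀ (r : ℕ) (x0 : ℚ) (x : Fin r → ℚ), (r : ℝ) ≤ C * Real.log B.card →
            (∀ b ∈ B, ∃ e : Fin r → ℤ, |(b : ℚ)| = x0 * ∏ i, x i ^ e i) →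
            ∀ X : Finset ℤ, X.Nonempty →
            c * (X.card : ℝ) ^ (1 - ε) * (B.card : ℝ) ^ ((k : ℝ) - ε) ≤
              (((X ×ˢ Fintype.piFinset (fun _ : Fin k => A)).image
                (fun z : ℤ × (Fin k → ℤ) => z.1 + ∑ i, z.2 i)).card : ℝ)) ∧
      ∀ (r : ℕ) (x0 : ℚ) (x : Fin r → ℚ), (r : ℝ) ≤ C * Real.log B.card →
        (∀ b ∈ B, ∃ e : Fin r → ℤ, |(b : ℚ)| = x0 * ∏ i, x i ^ e i) →
        ∀ X : Finset ℤ, X.Nonempty →
        c * (X.card : ℝ) ^ (1 - ε) * (B.card : ℝ) ^ k ≤
          (((X ×ˢ Fintype.piFinset (fun _ : Fin K => B)).image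
            (fun z : ℤ × (Fin K → ℤ) => z.1 + ∑ i, z.2 i)).card : ℝ) := by
  obtain ⟨m₁, c₁, hc₁, h₁⟩ := Pool.Agent.Helper24.MD.dilates k hk ε C hε
  obtain ⟨m₂, c₂, hc₂, h₂⟩ := Pool.Agent.Helper24.MD.dilatesX k ε C hε
  obtain ⟨K, c₃, hc₃, h₃⟩ := Pool.Agent.Helper24.MD.everysetX k ε C hε
  refine ⟨max m₁ m₂, K, min c₁ (min c₂ c₃), lt_min hc₁ (lt_min hc₂ hc₃),
    fun B hB h0 => ⟨?_, ?_⟩⟩
  · intro G hG hco hbad A hA
    have hL : 0 ≤ Real.log (B.card : ℝ) := Real.log_natCast_nonneg _
    have k1 : min c₁ (min c₂ c₃) ≤ c₁ := min_le_left _ _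
    have k2 : min c₁ (min c₂ c₃) ≤ c₂ := (min_le_right _ _).trans (min_le_left _ _)
    refine ⟨?_, ?_⟩
    · exact (mul_le_mul_of_nonneg_right k1 (by positivity)).trans
        (h₁ B hB h0 G ((le_max_left _ _).trans hG) hco
          (hbad.trans (mul_le_mul_of_nonneg_right k1 hL)) A hA).1
    · intro r x0 x hr hx X hX
      refine le_trans ?_ (h₂ B hB h0 G ((le_max_right _ _).trans hG) hco
        (hbad.trans (mul_le_mul_of_nonneg_right k2 hL)) A hA r x0 x hr hx X hX)
      exact mul_le_mul_of_nonneg_right (mul_le_mul_of_nonneg_right k2 (by positivity))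
        (by positivity)
  · intro r x0 x hr hx X hX
    refine le_trans ?_ (h₃ B hB h0 r x0 x hr hx X hX)
    exact mul_le_mul_of_nonneg_right (mul_le_mul_of_nonneg_right
      ((min_le_right _ _).trans (min_le_right _ _)) (by positivity)) (by positivity)

end Pool.Agent.Results.MP_120218_co.ManyDilates
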