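import Pool.Agent.Helper24.ON.H88.ONE.Six

set_option autoImplicit false

namespace Pool.Agent.Results.MP_120218_co.OneNumber

open Finset

/-- **One number bounds the growth of all sumsets and all product sets.**

There are constants `c, C > 0` such that every finite set `A` of integers with `N = |A| ≥ 16` has
a number `s` in `[0, 1]` with

1. (full growth) `|A^k| ≥ (N / 4)^(k (1 - C s log k))` for all `k ≥ 2`, and
   `|hA| ≥ (N / 4)^(h (1 - C (1 - s) log (h / (1 - s))))` for all `h ≥ 1`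
   (in Lean `(1 - s) log (h / (1 - s))` is `0` for `s = 1`);
2. (logarithmic growth) `|hA| ≥ N^(1 + c (s - C / log log N) log h)` for all `1 ≤ h ≤ log N`, and
   `|A^k| ≥ (N / 4)^(1 + c (1 - s) log k)` for all `k ≥ 1`;
3. (arbitrary sets) `|X + A| |X + X| ≥ |X|^2 N^(c s)` for all finite non-empty sets `X` of integers
   with `|X| ≤ N^(c s log log N)`, and `9 |Y A| |Y Y| ≥ |Y|^2 (N / 4)^(c (1 - s))` for all finite
   sets `Y` of integers with a non-zero element. -/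
theorem result : ∃ c C : ℝ, 0 < c ∧ 0 < C ∧ ∀ A : Finset ℤ, 16 ≤ A.card →
    ∃ s : ℝ, 0 ≤ s ∧ s ≤ 1 ∧
      (∀ k : ℕ, 2 ≤ k →
        ((A.card : ℝ) / 4) ^ ((k : ℝ) * (1 - C * s * Real.log k)) ≤
          (((Fintype.piFinset (fun _ : Fin k => A)).image
            (fun f : Fin k → ℤ => ∏ i, f i)).card : ℝ)) ∧
      (∀ h : ℕ, 1 ≤ h →
        ((A.card : ℝ) / 4) ^ ((h : ℝ) * (1 - C * (1 - s) * Real.log (h / (1 - s)))) ≤
          (((Fintype.piFinset (fun _ : Fin h => A)).image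
            (fun f : Fin h → ℤ => ∑ i, f i)).card : ℝ)) ∧
      (∀ h : ℕ, 1 ≤ h → (h : ℝ) ≤ Real.log A.card →
        (A.card : ℝ) ^ (1 + c * (s - C / Real.log (Real.log A.card)) * Real.log h) ≤
          (((Fintype.piFinset (fun _ : Fin h => A)).image
            (fun f : Fin h → ℤ => ∑ i, f i)).card : ℝ)) ∧
      (∀ k : ℕ, 1 ≤ k →
        ((A.card : ℝ) / 4) ^ (1 + c * (1 - s) * Real.log k) ≤
          (((Fintype.piFinset (fun _ : Fin k => A)).image
            (fun f : Fin k → ℤ => ∏ i, f i)).card : ℝ)) ∧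
      (∀ X : Finset ℤ, X.Nonempty →
        (X.card : ℝ) ≤ (A.card : ℝ) ^ (c * s * Real.log (Real.log A.card)) →
        (X.card : ℝ) ^ 2 * (A.card : ℝ) ^ (c * s) ≤
          (((X ×ˢ A).image (fun p : ℤ × ℤ => p.1 + p.2)).card : ℝ) *
            ((X ×ˢ X).image (fun p : ℤ × ℤ => p.1 + p.2)).card) ∧
      (∀ Y : Finset ℤ, (∃ y ∈ Y, y ≠ 0) →
        (Y.card : ℝ) ^ 2 * ((A.card : ℝ) / 4) ^ (c * (1 - s)) ≤
          9 * ((((Y ×ˢ A).image (fun p : ℤ × ℤ => p.1 * p.2)).card : ℝ) *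
            ((Y ×ˢ Y).image (fun p : ℤ × ℤ => p.1 * p.2)).card)) := by
  obtain ⟨c, C, hc, hC, h⟩ := Pool.Agent.Helper88.ONE.six
  refine ⟨c, C, hc, hC, ?_⟩
  intro A hA
  obtain ⟨s, hs0, hs1, h2, h4, h3, h1, hX, hY⟩ := h A hA
  exact ⟨s, hs0, hs1, h1, h4, h2, h3, hX, hY⟩

/-- The inequality of Elekes and Ruzsa for `k`-fold product sets, with a loss which is linear in
the exponent of the doubling. -/
theorem elekes_ruzsa : ∃ C : ℝ, 0 < C ∧ ∀ A : Finset ℤ, 16 ≤ A.card → ∀ k : ℕ, 2 ≤ k →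
    (A.card : ℝ) ^ k ≤
      (((Fintype.piFinset (fun _ : Fin k => A)).image
        (fun f : Fin k → ℤ => ∏ i, f i)).card : ℝ) *
      ((((Fintype.piFinset (fun _ : Fin 2 => A)).image
        (fun f : Fin 2 → ℤ => ∑ i, f i)).card : ℝ) / A.card) ^ (C * k * Real.log k) *
      (A.card : ℝ) ^ (C * k * Real.log k / Real.log (Real.log A.card)) :=
  Pool.Agent.Helper80.LL.erLL

/-- Fixed `k` and `ε`: almost maximal products, or sums growing at all orders. -/
theorem fixed_order : ∃ c : ℝ, 0 < c ∧ ∀ (k : ℕ) (ε : ℝ), 2 ≤ k → 0 < ε →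
    ∃ C : ℕ → ℝ, (∀ n, 0 < C n) ∧ ∀ A : Finset ℤ, A.Nonempty →
      C 0 * (A.card : ℝ) ^ ((1 - ε) * k) ≤
        (((Fintype.piFinset (fun _ : Fin k => A)).image
          (fun f : Fin k → ℤ => ∏ i, f i)).card : ℝ) ∨
      ∀ h : ℕ, 1 ≤ h → C h * (A.card : ℝ) ^ (1 + c * (ε / Real.log k) * Real.log h) ≤
        (((Fintype.piFinset (fun _ : Fin h => A)).image
          (fun f : Fin h → ℤ => ∑ i, f i)).card : ℝ) :=
  Pool.Agent.Helper80.LL.fixLL

end Pool.Agent.Results.MP_120218_co.OneNumber
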