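import Pool.Agent.Helper24.TG.G15


set_option autoImplicit false

namespace Pool.Agent.Results.MP_120218_co.Translates

open Finset Polynomial

/-- **All but boundedly many translates (and polynomial images) of a set of integers are
multiplicatively generic, and their reciprocals are additively generic; for sets with few sums, and
for sets made of groups of small diameter, there are no exceptions.**

For all `k ≥ 1`, `d` and `ε > 0` there are `m` and `c > 0` such that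
(1) for every finite non-empty set `A` of integers there is a set `Z` of at most `m` complex numbers
such that for all non-constant integer polynomials `F₁, …, F_k` of degree at most `d` which have
coefficients of absolute value at most `|A| ^ (c log log |A|)` and no zero in `Z` - or, if
`|A + A| ≤ |A|^(1+c)` or `A` contains at least `|A| ^ (1-c)` disjoint `m`-element sets of diameter at
most `|A| ^ (c log log |A|)`, which only do not vanish identically on `A` - and for all finite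
non-empty sets `B` of complex numbers,
`|{F₁(a₁) ⋯ F_k(a_k) b : a_i ∈ A, b ∈ B}| ≥ c |A|^(k-ε) |B|^(1-ε)` if `0 ∉ B`, and
`|{1/F₁(a₁) + ⋯ + 1/F_k(a_k) + b : a_i ∈ A, F_i(a_i) ≠ 0, b ∈ B}| ≥ c |A|^(k-ε) |B|^(1-ε)`;
(2) let `B` be a finite non-empty set of integers and `A` a finite non-empty set of complex numbers
with `|A| ≤ |B|^(1+c)`, and let `F₀, …, F_m` be non-constant integer polynomials of degree at most
`d`, with coefficients of absolute value at most `|B| ^ (c log log |B|)`, no two of which have a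
common complex zero, and `t₀, …, t_m` non-zero complex numbers.  If `A` contains the numbers
`t_i F_i(b)`, `b ∈ B`, for every `i`, then `|A^k| ≥ c |A|^(k-ε)`.  If `A` contains the numbers
`t_i / F_i(b)`, `b ∈ B`, `F_i(b) ≠ 0`, for every `i`, then `|A^k| ≥ c |A|^(k-ε)` and
`|kA| ≥ c |A|^(k-ε)`. -/
theorem result :
    ∀ k d : ℕ, 1 ≤ k → ∀ ε : ℝ, 0 < ε → ∃ (m : ℕ) (c : ℝ), 0 < c ∧
      (∀ A : Finset ℤ, A.Nonempty → ∃ Z : Finset ℂ, Z.card ≤ m ∧
        ∀ F : Fin k → ℤ[X], (∀ i, 1 ≤ (F i).natDegree ∧ (F i).natDegree ≤ d) →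
          ((∀ i, (∀ j, |((F i).coeff j : ℝ)| ≤ (A.card : ℝ) ^ (c * Real.log (Real.log A.card))) ∧
              ∀ z ∈ Z, aeval z (F i) ≠ 0) ∨
            ((({s : ℤ | ∃ a ∈ A, ∃ b ∈ A, s = a + b}.ncard : ℝ) ≤ (A.card : ℝ) ^ (1 + c) ∨
              ∃ S : Finset (Finset ℤ), (A.card : ℝ) ^ (1 - c) ≤ (S.card : ℝ) ∧
                (∀ G ∈ S, G ⊆ A ∧ G.card = m ∧ ∀ a ∈ G, ∀ b ∈ G,
                  |((a - b : ℤ) : ℝ)| ≤ (A.card : ℝ) ^ (c * Real.log (Real.log A.card))) ∧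
                ∀ G ∈ S, ∀ G' ∈ S, G ≠ G' → Disjoint G G') ∧
              ∀ i, ∃ a ∈ A, (F i).eval a ≠ 0)) →
          ∀ B : Finset ℂ, B.Nonempty →
            ((0 : ℂ) ∉ B →
              c * (A.card : ℝ) ^ ((k : ℝ) - ε) * (B.card : ℝ) ^ (1 - ε) ≤
                ({y : ℂ | ∃ a : Fin k → ℤ, (∀ i, a i ∈ A) ∧ ∃ b ∈ B,
                  y = (∏ i, (((F i).eval (a i) : ℤ) : ℂ)) * b}.ncard : ℝ)) ∧
            c * (A.card : ℝ) ^ ((k : ℝ) - ε) * (B.card : ℝ) ^ (1 - ε) ≤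
              ({y : ℂ | ∃ a : Fin k → ℤ, (∀ i, a i ∈ A ∧ (F i).eval (a i) ≠ 0) ∧ ∃ b ∈ B,
                y = (∑ i, 1 / (((F i).eval (a i) : ℤ) : ℂ)) + b}.ncard : ℝ)) ∧
      ∀ (B : Finset ℤ) (A : Finset ℂ), B.Nonempty → A.Nonempty →
        (A.card : ℝ) ≤ (B.card : ℝ) ^ (1 + c) →
        ∀ (F : Fin (m + 1) → ℤ[X]) (t : Fin (m + 1) → ℂ),
          (∀ i, 1 ≤ (F i).natDegree ∧ (F i).natDegree ≤ d ∧
            (∀ j, |((F i).coeff j : ℝ)| ≤ (B.card : ℝ) ^ (c * Real.log (Real.log B.card))) ∧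
            t i ≠ 0) →
          (∀ i j, i ≠ j → ∀ z : ℂ, ¬ (aeval z (F i) = 0 ∧ aeval z (F j) = 0)) →
          ((∀ i, ∀ b ∈ B, t i * (((F i).eval b : ℤ) : ℂ) ∈ A) →
            c * (A.card : ℝ) ^ ((k : ℝ) - ε) ≤
              ({y : ℂ | ∃ f : Fin k → ℂ, (∀ i, f i ∈ A) ∧ y = ∏ i, f i}.ncard : ℝ)) ∧
          ((∀ i, ∀ b ∈ B, (F i).eval b ≠ 0 → t i / (((F i).eval b : ℤ) : ℂ) ∈ A) →
            c * (A.card : ℝ) ^ ((k : ℝ) - ε) ≤
              ({y : ℂ | ∃ f : Fin k → ℂ, (∀ i, f i ∈ A) ∧ y = ∏ i, f i}.ncard : ℝ) ∧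
            c * (A.card : ℝ) ^ ((k : ℝ) - ε) ≤
              ({y : ℂ | ∃ f : Fin k → ℂ, (∀ i, f i ∈ A) ∧ y = ∑ i, f i}.ncard : ℝ)) :=
  Pool.Agent.Helper99.FS.result_of2
    (Pool.Agent.Helper99.TR.trz Pool.Agent.Helper34.TR.nzMixT)
    (Pool.Agent.Helper99.RT.rtz Pool.Agent.Helper99.RT.nrMix)
    Pool.Agent.Helper99.FS.fewZU

end Pool.Agent.Results.MP_120218_co.Translates
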